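import Mathlib
import Pool.Agent.V1183.BQ.Fin

/-!
Every mean-free square integrable temperature is the temperature component of a point of the
attractor of the semi-dissipative Boussinesq system: `P_θ 𝒜 = L²`.
-/

open MeasureTheory Set
open Pool.Agent.V1183.BQ

namespace Pool.Agent.Results.MP_f7c28d_an.AllTemperatures

/-- `P_θ 𝒜` is the whole space of mean-free square integrable functions. -/
theorem result (L ν g : ℝ) (hL : 0 < L) (hν : 0 < ν) (hg : 0 < g) (θ0 : T2 → ℝ)
    (h0 : InL2 θ0) : ∃ u0 : Fin 2 → T2 → ℝ, InH L u0 ∧ InAttractor L ν g u0 θ0 := by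
  obtain ⟨u, θ, M, hsol, hθ0, hM⟩ := main_fun hL hν hg.le θ0 h0
  have h1 := hsol 0
  simp only [sub_zero] at h1
  exact ⟨u 0, h1.u_H 0 (mem_univ _), u, θ, h1, fun i => Filter.EventuallyEq.rfl, hθ0, M, hM⟩

end Pool.Agent.Results.MP_f7c28d_an.AllTemperatures
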